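import Pool.Agent.X268.SE.Stm
import Pool.Agent.X268.SD.Main

set_option linter.unusedSectionVars false

open Module

namespace Pool.Agent.X268.SE

open Pool.Agent.X268.HS

variable {A : Type} [Ring A] [Algebra ℚ A] [StarRing A] {n : ℕ}

/-! ### The isomorphisms of the blocks -/

theorem block_isom {V W : LData A} {l : Op V} {l' : Op W} {j k : ℕ} (b : Block l j k)
    (b' : Block l' j k) (Φ : V.V ≃ₗ[A] W.V) (lin : ∀ x, Φ (l x) = l' (Φ x))
    (isom : ∀ x y, W.B (Φ x) (Φ y) = V.B x y) : Nonempty (Isom b.Q b'.Q) := by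
  have pow : ∀ (j : ℕ) (x : V.V), Φ ((l ^ j) x) = (l' ^ j) (Φ x) := by
    intro j
    induction j with
    | zero => intro x; rfl
    | succ j ih =>
      intro x
      rw [pow_succ, pow_succ, Module.End.mul_apply, Module.End.mul_apply, ih, lin]
  have hK : ∀ (j : ℕ) (x : V.V), x ∈ Kr l j ↔ Φ x ∈ Kr l' j := by
    intro j x
    unfold Kr
    rw [LinearMap.mem_ker, LinearMap.mem_ker, ← pow]
    constructor
    · intro h; rw [h, map_zero]
    · intro h
      apply Φ.injective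
      rw [h, map_zero]
  have mapK : ∀ j : ℕ, (Kr l j).map (Φ : V.V →ₗ[A] W.V) = Kr l' j := by
    intro j
    apply le_antisymm
    · rintro _ ⟨x, hx, rfl⟩
      exact (hK j x).mp hx
    · intro y hy
      refine ⟨Φ.symm y, ?_, Φ.apply_symm_apply y⟩
      refine (hK j _).mpr ?_
      rw [Φ.apply_symm_apply]
      exact hy
  have hI : ∀ (j : ℕ) (x : V.V), x ∈ Ir l j ↔ Φ x ∈ Ir l' j := by
    intro j x
    unfold Ir
    rw [Submodule.mem_sup, Submodule.mem_sup]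
    constructor
    · rintro ⟨u, hu, _, ⟨w, hw, rfl⟩, rfl⟩
      exact ⟨Φ u, (hK j u).mp hu, l' (Φ w), ⟨Φ w, (hK _ w).mp hw, rfl⟩, by rw [map_add, lin]⟩
    · rintro ⟨u, hu, _, ⟨w, hw, rfl⟩, h⟩
      refine ⟨Φ.symm u, (hK j _).mpr (by rw [Φ.apply_symm_apply]; exact hu), l (Φ.symm w),
        ⟨Φ.symm w, (hK _ _).mpr (by rw [Φ.apply_symm_apply]; exact hw), rfl⟩, ?_⟩
      apply Φ.injective
      rw [map_add, lin, Φ.apply_symm_apply, Φ.apply_symm_apply]
      exact h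
  -- surjectivity
  have sur : ∀ {V : LData A} {l : Op V} (b : Block l j k), Function.Surjective b.π := by
    intro V l b
    rw [← LinearMap.range_eq_top, eq_top_iff, ← b.Q.sup]
    refine iSup_le fun i y hy => ?_
    obtain ⟨x, -, hx⟩ := b.blk.surj i y hy
    exact ⟨x, hx⟩
  let ΦK : Kr l (j + 1) ≃ₗ[A] Kr l' (j + 1) := LinearEquiv.ofSubmodules Φ _ _ (mapK (j + 1))
  have hΦK : ∀ x, (ΦK x : W.V) = Φ x := fun x => rfl
  have hker : (LinearMap.ker b.π).map (ΦK : Kr l (j + 1) →ₗ[A] Kr l' (j + 1)) =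
      LinearMap.ker b'.π := by
    apply le_antisymm
    · rintro _ ⟨x, hx, rfl⟩
      have h1 : b.π x = 0 := hx
      have h2 := (b.blk.ker x).mp h1
      have h3 : Φ (x : V.V) ∈ Ir l' j := (hI j _).mp h2
      exact (b'.blk.ker (ΦK x)).mpr h3
    · intro y hy
      refine ⟨ΦK.symm y, ?_, ΦK.apply_symm_apply y⟩
      have h1 : b'.π y = 0 := hy
      have h2 : (y : W.V) ∈ Ir l' j := (b'.blk.ker y).mp h1
      refine (b.blk.ker (ΦK.symm y)).mpr ?_
      refine (hI j _).mpr ?_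
      rw [← hΦK, ΦK.apply_symm_apply]
      exact h2
  let e1 := b.π.quotKerEquivOfSurjective (sur b)
  let e2 := b'.π.quotKerEquivOfSurjective (sur b')
  let e3 := Submodule.Quotient.equiv (LinearMap.ker b.π) (LinearMap.ker b'.π) ΦK hker
  let φ : b.Q.V ≃ₗ[A] b'.Q.V := e1.symm.trans (e3.trans e2)
  have hφ : ∀ x, φ (b.π x) = b'.π (ΦK x) := by
    intro x
    have h1 : e1.symm (b.π x) = Submodule.Quotient.mk x := by
      rw [LinearEquiv.symm_apply_eq]
      rfl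
    show e2 (e3 (e1.symm (b.π x))) = _
    rw [h1]
    rfl
  refine ⟨⟨φ, fun u v => ?_⟩⟩
  obtain ⟨x, rfl⟩ := sur b u
  obtain ⟨y, rfl⟩ := sur b v
  show b'.Q.B (φ (b.π x)) (φ (b.π y)) = b.Q.B (b.π x) (b.π y)
  rw [hφ, hφ]
  have h1 : b'.Q.B (b'.π (ΦK x)) (b'.π (ΦK y)) = W.B (Φ x) ((l' ^ j) (Φ y)) :=
    b'.blk.form (ΦK x) (ΦK y)
  have h2 : b.Q.B (b.π x) (b.π y) = V.B x ((l ^ j) (y : V.V)) := b.blk.form x y
  rw [h1, h2, ← pow, isom]

end Pool.Agent.X268.SE
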