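import Pool.Agent.X268.SE.Blk

set_option linter.unusedSectionVars false

open Module

namespace Pool.Agent.X268.SE

open Pool.Agent.X268.HS

section

variable {A : Type} [Ring A] [Algebra ℚ A]
variable (T : Type) [AddCommGroup T] [Module ℚ T] [Module A T] [IsScalarTower ℚ A T]
  [FiniteDimensional ℚ T]
variable {V V' : Type} [AddCommGroup V] [Module ℚ V] [Module A V] [IsScalarTower ℚ A V]
  [FiniteDimensional ℚ V] [AddCommGroup V'] [Module ℚ V'] [Module A V'] [IsScalarTower ℚ A V']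
  [FiniteDimensional ℚ V']

/-- The dimensions for a surjective homomorphism from `N` to `M` with kernel `P`. -/
theorem hs_exact [IsSemisimpleModule A V] (N P : Submodule A V) (M : Submodule A V') (hP : P ≤ N)
    (f : N →ₗ[A] V') (hker : ∀ x : N, f x = 0 ↔ (x : V) ∈ P) (hmem : ∀ x : N, f x ∈ M)
    (hsurj : ∀ y ∈ M, ∃ x : N, f x = y) : hs T N = hs T P + hs T M := by
  obtain ⟨C, hC⟩ := exists_isCompl P
  have h1 : N = P ⊔ (N ⊓ C) := by
    apply le_antisymm
    · intro x hx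
      have hx1 : x ∈ P ⊔ C := by rw [hC.sup_eq_top]; trivial
      rw [Submodule.mem_sup] at hx1 ⊢
      obtain ⟨y, hy, z, hz, rfl⟩ := hx1
      refine ⟨y, hy, z, ⟨?_, hz⟩, rfl⟩
      have : z = (y + z) - y := by abel
      rw [this]
      exact N.sub_mem hx (hP hy)
    · exact sup_le hP inf_le_left
  have h2 : P ⊓ (N ⊓ C) = ⊥ := by
    rw [eq_bot_iff, ← hC.inf_eq_bot]
    exact inf_le_inf le_rfl inf_le_right
  have h3 : hs T N = hs T P + hs T (N ⊓ C) := by
    conv_lhs => rw [h1]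
    exact hs_sup T h2
  let g : (N ⊓ C : Submodule A V) →ₗ[A] M :=
    LinearMap.codRestrict M (f ∘ₗ Submodule.inclusion inf_le_left) fun x => hmem _
  have hg : ∀ x : (N ⊓ C : Submodule A V), (g x : V') = f ⟨x, x.2.1⟩ := fun x => rfl
  have hbij : Function.Bijective g := by
    constructor
    · rw [injective_iff_map_eq_zero]
      intro x hx
      have h4 : f ⟨x, x.2.1⟩ = 0 := by rw [← hg, hx]; rfl
      have h5 : (x : V) ∈ P ⊓ C := ⟨(hker _).mp h4, x.2.2⟩
      rw [hC.inf_eq_bot, Submodule.mem_bot] at h5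
      exact Subtype.ext h5
    · intro y
      obtain ⟨x, hx⟩ := hsurj y y.2
      have hx1 : (x : V) ∈ P ⊔ (N ⊓ C) := by rw [← h1]; exact x.2
      rw [Submodule.mem_sup] at hx1
      obtain ⟨p, hp, c, hc, hpc⟩ := hx1
      refine ⟨⟨c, hc⟩, Subtype.ext ?_⟩
      rw [hg, ← hx]
      have h4 : x = ⟨p, hP hp⟩ + ⟨c, hc.1⟩ := Subtype.ext hpc.symm
      rw [h4, map_add, (hker ⟨p, hP hp⟩).mpr hp, zero_add]
  rw [h3]
  congr 1
  exact hm_congr T (LinearEquiv.ofBijective g hbij)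

/-- The dimensions for the image of a submodule. -/
theorem hs_image [IsSemisimpleModule A V] (f : V →ₗ[A] V') (N : Submodule A V) :
    hs T N = hs T (N ⊓ LinearMap.ker f) + hs T (N.map f) := by
  refine hs_exact T N _ _ inf_le_left (f.domRestrict N) (fun x => ?_) (fun x => ⟨x, x.2, rfl⟩) ?_
  · constructor
    · intro h
      exact ⟨x.2, h⟩
    · rintro ⟨-, h⟩
      exact h
  · rintro y ⟨x, hx, rfl⟩
    exact ⟨⟨x, hx⟩, rfl⟩

end

variable {A : Type} [Ring A] [Algebra ℚ A] [StarRing A] {n : ℕ}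

/-! ### Components -/

/-- The component of degree `i`. -/
noncomputable def comp (X : LefMod A n) (i : ℤ) (x : X.V) : X.V :=
  letI := (DirectSum.isInternal_submodule_of_iSupIndep_of_iSup_eq_top X.indep X.sup).chooseDecomposition
  (DirectSum.decompose X.deg x i : X.V)

theorem comp_mem (X : LefMod A n) (i : ℤ) (x : X.V) : comp X i x ∈ X.deg i := by
  unfold comp
  exact SetLike.coe_mem _

theorem comp_same (X : LefMod A n) {i : ℤ} {x : X.V} (hx : x ∈ X.deg i) : comp X i x = x := by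
  let := (DirectSum.isInternal_submodule_of_iSupIndep_of_iSup_eq_top X.indep X.sup).chooseDecomposition
  exact DirectSum.decompose_of_mem_same X.deg hx

theorem comp_ne (X : LefMod A n) {i j : ℤ} {x : X.V} (hx : x ∈ X.deg i) (h : i ≠ j) :
    comp X j x = 0 := by
  let := (DirectSum.isInternal_submodule_of_iSupIndep_of_iSup_eq_top X.indep X.sup).chooseDecomposition
  exact DirectSum.decompose_of_mem_ne X.deg hx h

theorem comp_add (X : LefMod A n) (i : ℤ) (x y : X.V) :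
    comp X i (x + y) = comp X i x + comp X i y := by
  unfold comp
  rw [DirectSum.decompose_add, DirectSum.add_apply, Submodule.coe_add]

theorem comp_zero (X : LefMod A n) (i : ℤ) : comp X i 0 = 0 := by
  have := comp_add X i 0 0
  rw [add_zero] at this
  exact left_eq_add.mp this

variable (X Y : RelMod A n)

theorem l_mem' {i : ℤ} {x : X.V} (hx : x ∈ X.deg i) : X.l x ∈ X.deg (i + 1) := by
  have h := X.l_mem i x hx
  have e : lpow X.l 1 x = X.l x := by unfold lpow; rw [pow_one]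
  rw [e] at h
  exact h

theorem comp_l (i : ℤ) (x : X.V) : comp X.toLefMod (i + 1) (X.l x) = X.l (comp X.toLefMod i x) := by
  have hx : x ∈ ⨆ i, X.deg i := by rw [X.sup]; trivial
  refine Submodule.iSup_induction _ (motive := fun x => comp X.toLefMod (i + 1) (X.l x) =
    X.l (comp X.toLefMod i x)) hx ?_ ?_ ?_
  · intro j x hx
    by_cases hij : j = i
    · subst hij
      rw [comp_same _ hx, comp_same _ (l_mem' X hx)]
    · rw [comp_ne _ hx hij, comp_ne _ (l_mem' X hx) (by omega), map_zero]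
  · rw [map_zero, comp_zero, comp_zero, map_zero]
  · intro x y hx hy
    rw [map_add, comp_add, comp_add, map_add, hx, hy]

theorem comp_lpow (j : ℕ) (i : ℤ) (x : X.V) :
    comp X.toLefMod (i + j) ((X.l ^ j) x) = (X.l ^ j) (comp X.toLefMod i x) := by
  induction j with
  | zero => simp
  | succ j ih =>
    rw [pow_succ', Module.End.mul_apply, Module.End.mul_apply, ← ih, ← comp_l]
    congr 1
    push_cast
    ring

theorem mem_Kr {V : LData A} {l : Op V} {j : ℕ} {x : V.V} : x ∈ Kr l j ↔ (l ^ j) x = 0 := Iff.rfl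

theorem comp_Kr {j : ℕ} {x : X.V} (hx : x ∈ Kr X.l j) (i : ℤ) :
    comp X.toLefMod i x ∈ Kr X.l j := by
  rw [mem_Kr] at *
  rw [← comp_lpow, hx, comp_zero]

theorem Kr_mono {V : LData A} {l : Op V} {i j : ℕ} (h : i ≤ j) : Kr l i ≤ Kr l j := by
  intro x hx
  rw [mem_Kr] at *
  obtain ⟨k, rfl⟩ := Nat.exists_eq_add_of_le h
  rw [add_comm, pow_add, Module.End.mul_apply, hx, map_zero]

theorem l_Kr {V : LData A} {l : Op V} {j : ℕ} {x : V.V} : l x ∈ Kr l j ↔ x ∈ Kr l (j + 1) := by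
  rw [mem_Kr, mem_Kr, pow_succ, Module.End.mul_apply]

theorem Ir_le {V : LData A} {l : Op V} (j : ℕ) : Ir l j ≤ Kr l (j + 1) := by
  refine sup_le (Kr_mono (by omega)) ?_
  rintro _ ⟨w, hw, rfl⟩
  exact l_Kr.mpr hw

theorem Ir_deg (j : ℕ) (i : ℤ) : Ir X.l j ⊓ X.deg i =
    (Kr X.l j ⊓ X.deg i) ⊔ (Kr X.l (j + 2) ⊓ X.deg (i - 1)).map X.l := by
  apply le_antisymm
  · rintro x ⟨hx, hi⟩
    have hx' : x ∈ Kr X.l j ⊔ (Kr X.l (j + 2)).map X.l := hx
    rw [Submodule.mem_sup] at hx' ⊢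
    obtain ⟨u, hu, _, ⟨w, hw, rfl⟩, rfl⟩ := hx'
    refine ⟨comp X.toLefMod i u, ⟨comp_Kr X hu i, comp_mem _ _ _⟩, X.l (comp X.toLefMod (i - 1) w),
      ⟨_, ⟨comp_Kr X hw _, comp_mem _ _ _⟩, rfl⟩, ?_⟩
    have h1 := comp_same X.toLefMod hi
    rw [comp_add] at h1
    have h2 := comp_l X (i - 1) w
    rw [sub_add_cancel] at h2
    rw [h2] at h1
    exact h1
  · refine sup_le (inf_le_inf le_sup_left le_rfl) ?_
    rintro _ ⟨w, ⟨hw, hi⟩, rfl⟩
    refine ⟨Submodule.mem_sup_right ⟨w, hw, rfl⟩, ?_⟩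
    have := l_mem' X hi
    rwa [sub_add_cancel] at this

section

variable (T : Type) [AddCommGroup T] [Module ℚ T] [Module A T] [IsScalarTower ℚ A T]
  [FiniteDimensional ℚ T]

/-- The multiplicities in `ker (l ^ j)`. -/
noncomputable def kap (j : ℕ) (i : ℤ) : ℤ := hs T (Kr X.l j ⊓ X.deg i)

theorem hs_Ir (j : ℕ) (i : ℤ) : (hs T (Ir X.l j ⊓ X.deg i) : ℤ) =
    kap X T j i + (kap X T (j + 2) (i - 1) - kap X T (j + 1) (i - 1)) := by
  rw [Ir_deg]
  have h1 := hs_modular T (Kr X.l j ⊓ X.deg i) ((Kr X.l (j + 2) ⊓ X.deg (i - 1)).map X.l)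
  have h2 : (Kr X.l j ⊓ X.deg i) ⊓ ((Kr X.l (j + 2) ⊓ X.deg (i - 1)).map X.l) =
      (Kr X.l (j + 1) ⊓ X.deg (i - 1)).map X.l := by
    apply le_antisymm
    · rintro _ ⟨⟨h3, -⟩, w, ⟨hw, hi⟩, rfl⟩
      exact ⟨w, ⟨l_Kr.mp h3, hi⟩, rfl⟩
    · rintro _ ⟨w, ⟨hw, hi⟩, rfl⟩
      refine ⟨⟨l_Kr.mpr hw, ?_⟩, w, ⟨Kr_mono (by omega) hw, hi⟩, rfl⟩
      have := l_mem' X hi
      rwa [sub_add_cancel] at this
  rw [h2] at h1
  have h3 := hs_image T X.l (Kr X.l (j + 2) ⊓ X.deg (i - 1))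
  have h4 := hs_image T X.l (Kr X.l (j + 1) ⊓ X.deg (i - 1))
  have h5 : ∀ k : ℕ, Kr X.l (k + 1) ⊓ X.deg (i - 1) ⊓ LinearMap.ker X.l =
      X.deg (i - 1) ⊓ LinearMap.ker X.l := by
    intro k
    apply le_antisymm
    · rintro x ⟨⟨-, h⟩, h'⟩
      exact ⟨h, h'⟩
    · rintro x ⟨h, h'⟩
      refine ⟨⟨?_, h⟩, h'⟩
      show x ∈ Kr X.l (k + 1)
      rw [mem_Kr, pow_succ, Module.End.mul_apply]
      have : X.l x = 0 := h'
      rw [this, map_zero]
  rw [h5 (j + 1)] at h3
  rw [h5 j] at h4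
  unfold kap
  omega

theorem vv_block {j k : ℕ} (b : Block X.l j k) (i : ℤ) : vv T b.Q i =
    (kap X T (j + 1) i - kap X T j i) - (kap X T (j + 2) (i - 1) - kap X T (j + 1) (i - 1)) := by
  have h1 := hs_exact T (Kr X.l (j + 1) ⊓ X.deg i) (Ir X.l j ⊓ X.deg i) (b.Q.deg i)
    (inf_le_inf (Ir_le j) le_rfl) (b.π ∘ₗ Submodule.inclusion inf_le_left)
    (fun x => by
      constructor
      · intro h
        exact ⟨(b.blk.ker ⟨x, x.2.1⟩).mp h, x.2.2⟩
      · rintro ⟨h, -⟩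
        exact (b.blk.ker ⟨x, x.2.1⟩).mpr h)
    (fun x => b.blk.mem i ⟨x, x.2.1⟩ x.2.2)
    (fun y hy => by
      obtain ⟨x, hx, hxy⟩ := b.blk.surj i y hy
      exact ⟨⟨x.1, x.2, hx⟩, hxy⟩)
  have h2 := hs_Ir X T j i
  unfold vv
  have h3 : (hs T (Kr X.l (j + 1) ⊓ X.deg i) : ℤ) = kap X T (j + 1) i := rfl
  have h4 : (hs T (Kr X.l (j + 1) ⊓ X.deg i) : ℤ) = hs T (Ir X.l j ⊓ X.deg i) +
      hs T (b.Q.deg i) := by exact_mod_cast h1
  linarith

theorem kap_zero (i : ℤ) : kap X T 0 i = 0 := by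
  unfold kap
  have : Kr X.l 0 ⊓ X.deg i = ⊥ := by
    rw [eq_bot_iff]
    rintro x ⟨hx, -⟩
    exact hx
  rw [this, hs_bot]
  rfl

theorem lpow_mem (j : ℕ) {i : ℤ} {x : X.V} (hx : x ∈ X.deg i) : (X.l ^ j) x ∈ X.deg (i + j) := by
  induction j with
  | zero => simpa using hx
  | succ j ih =>
    rw [pow_succ', Module.End.mul_apply]
    have := l_mem' X ih
    have e : i + (j : ℤ) + 1 = i + ((j + 1 : ℕ) : ℤ) := by push_cast; ring
    rwa [e] at this

theorem kap_top {j : ℕ} (hj : n < j) (i : ℤ) : kap X T j i = vv T X.toLefMod i := by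
  unfold kap vv
  have : Kr X.l j ⊓ X.deg i = X.deg i := by
    refine le_antisymm inf_le_right fun x hx => ⟨?_, hx⟩
    show x ∈ Kr X.l j
    rw [mem_Kr]
    rcases lt_or_ge i 0 with h | h
    · rw [X.van i (Or.inl h), Submodule.mem_bot] at hx
      rw [hx, map_zero]
    · have h1 := lpow_mem X j hx
      rw [X.van _ (Or.inr (by omega)), Submodule.mem_bot] at h1
      exact h1
  rw [this]

/-- The multiplicities in `ker (l ^ (j + 1)) / ker (l ^ j)`. -/
noncomputable def Dk (j : ℕ) (i : ℤ) : ℤ := kap X T (j + 1) i - kap X T j i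

theorem Dk_rec (j k : ℕ) (h : j + k = n) (i : ℤ) :
    Dk X T j i = vv T (X.blk j k h).Q i + Dk X T (j + 1) (i - 1) := by
  unfold Dk
  rw [vv_block]
  ring

theorem vv_sum (i : ℤ) : vv T X.toLefMod i = ∑ j ∈ Finset.range (n + 1), Dk X T j i := by
  unfold Dk
  rw [Finset.sum_range_sub (fun m => kap X T m i), kap_top X T (by omega), kap_zero, sub_zero]

variable {X Y}

theorem Dk_agree (r : ℕ) (hb : ∀ (j k : ℕ) (h : j + k = n) (i : ℤ), r ≤ j →
    vv T (X.blk j k h).Q i = vv T (Y.blk j k h).Q i) :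
    ∀ (k j : ℕ), j + k = n + 1 → r ≤ j → ∀ i, Dk X T j i = Dk Y T j i := by
  intro k
  induction k with
  | zero =>
    intro j hj _ i
    unfold Dk
    rw [kap_top X T (by omega), kap_top X T (by omega), kap_top Y T (by omega),
      kap_top Y T (by omega), sub_self, sub_self]
  | succ k ih =>
    intro j hj hr i
    rw [Dk_rec X T j k (by omega), Dk_rec Y T j k (by omega), hb j k (by omega) i hr,
      ih (j + 1) (by omega) (by omega)]

/-- The multiplicities agree if those of the blocks agree. -/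
theorem vv_agree (hb : ∀ (j k : ℕ) (h : j + k = n) (i : ℤ),
    vv T (X.blk j k h).Q i = vv T (Y.blk j k h).Q i) (i : ℤ) :
    vv T X.toLefMod i = vv T Y.toLefMod i := by
  rw [vv_sum, vv_sum]
  refine Finset.sum_congr rfl fun j hj => ?_
  rw [Finset.mem_range] at hj
  exact Dk_agree T 0 (fun j k h i _ => hb j k h i) (n + 1 - j) j (by omega) (by omega) i

end

variable {X Y}

/-- The isometries of the blocks. -/
theorem rel_block (Φ : RIsom X Y) (j k : ℕ) (h : j + k = n) :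
    Nonempty (Isom (X.blk j k h).Q (Y.blk j k h).Q) :=
  block_isom (X.blk j k h) (Y.blk j k h) Φ.φ
    (fun x => by
      have e1 : lpow X.l 1 x = X.l x := by unfold lpow; rw [pow_one]
      have e2 : lpow Y.l 1 (LData.map Φ.φ x) = Y.l (LData.map Φ.φ x) := by
        unfold lpow; rw [pow_one]
      have := Φ.lin x
      rw [e1, e2] at this
      exact this) Φ.isom

/-- **Relative inertia.** -/
theorem rel_graded (pos : RelPos X Y) (Φ : RIsom X Y) (low : Low X Y) :
    GrIso X.toLefMod Y.toLefMod := by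
  have hb : ∀ (j k : ℕ) (h : j + k = n), GrIso (X.blk j k h).Q (Y.blk j k h).Q := by
    intro j k h
    obtain ⟨Ψ⟩ := rel_block Φ j k h
    rcases Nat.even_or_odd' k with ⟨c, hc | hc⟩
    · exact iso_even (pos j k h) Ψ (c := c) (by omega) fun i h0 hi =>
        (low j k h i h0 (by omega)).equiv
    · exact iso_odd Ψ.φ (c := c) (by omega) fun i h0 hi =>
        (low j k h i h0 (by omega)).equiv
  refine graded_iso fun i => iso_of_vv ?_
  intro T _ _ _ _ _
  refine vv_agree T (fun j k h i => ?_) i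
  exact vv_of_iso (SD.deg_of_graded (hb j k h) i) T

end Pool.Agent.X268.SE
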