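import Pool.Agent.X268.SE.Count
import Pool.Agent.X268.DH.Except

set_option linter.unusedSectionVars false

open Module

namespace Pool.Agent.X268.SE

open Pool.Agent.X268.HS Pool.Agent.X268.SD

variable {A : Type} [Ring A] [Algebra ℚ A] [StarRing A] {m : ℕ}

variable {E F : RelMod A (m + 1)} {O P : RelMod A m} {η : Count A} {K L : DH.Fib (m + 1)}

theorem low_mult (hK : RGives η E O K) (hL : RGives η F P L) (hE : LowExcept E F)
    (hO : Low O P) (j : ℕ) (p q : ℤ) (h : p + q + j + 3 ≤ (m + 1 : ℕ))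
    (hne : ¬ (j = 0 ∧ p = 1 ∧ q = 1)) : DH.mult K j p q = DH.mult L j p q := by
  by_cases hneg : p < 0 ∨ q < 0
  · rw [DH.mult_neg K j hneg, DH.mult_neg L j hneg]
  push Not at hneg
  obtain ⟨hp, hq⟩ := hneg
  push_cast at h
  rcases Int.even_or_odd' (p + q) with ⟨i, hi | hi⟩
  · obtain ⟨k, hk⟩ : ∃ k : ℕ, j + k = m + 1 := ⟨m + 1 - j, by omega⟩
    have h1 := hK.2.1 j k hk i (p - i)
    have h2 := hL.2.1 j k hk i (p - i)
    rw [show i + (p - i) = p by ring, show i - (p - i) = q by omega] at h1 h2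
    rw [h1, h2]
    by_cases hi1 : j = 0 ∧ i = 1
    · obtain ⟨rfl, rfl⟩ := hi1
      obtain rfl : k = m + 1 := by omega
      obtain ⟨a, b, ⟨e⟩⟩ := hE.2.2.equiv
      have h3 := η.of_equiv (p - 1) e
      rw [Count.of_prod, Count.of_prod, Count.of_pow, Count.of_pow] at h3
      have z : ∀ (Z : RelMod A (m + 1)) (Z' : RelMod A m) (Q : DH.Fib (m + 1)), RGives η Z Z' Q →
          η.num (p - 1) (ModuleCat.of A (Z.deg 0)) = 0 := by
        intro Z Z' Q hQ
        have h4 := (hQ.1 0 (p - 1)).1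
        have h5 : Q.toKRing.h (0 + (p - 1)) (0 - (p - 1)) = 0 := Q.toKRing.h_zero (by omega)
        rw [h5] at h4
        exact h4.symm
      rw [z E O K hK, z F P L hL, mul_zero, mul_zero, add_zero, add_zero] at h3
      exact_mod_cast h3
    · obtain ⟨e⟩ := (hE.1 j k hk i (by omega) (by omega) hi1).equiv
      exact_mod_cast η.of_equiv _ e
  · obtain ⟨k, hk⟩ : ∃ k : ℕ, j + k = m := ⟨m - j, by omega⟩
    have h1 := hK.2.2 j k hk i (p - i)
    have h2 := hL.2.2 j k hk i (p - i)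
    rw [show i + (p - i) = p by ring, show i + 1 - (p - i) = q by omega] at h1 h2
    rw [h1, h2]
    obtain ⟨e⟩ := (hO j k hk i (by omega) (by omega)).equiv
    exact_mod_cast η.of_equiv _ e

/-- Cancellation. -/
theorem cancel {V W V' W' : LData A} {i : ℤ} (h : UpTo V W V' W' i) (h0 : DegIso V' W' 0)
    (hV : η.num 0 (degMod V' 0) = 1) (hW : η.num 0 (degMod W' 0) = 1)
    (heq : η.num 0 (degMod V i) = η.num 0 (degMod W i)) : DegIso V W i := by
  obtain ⟨a, b, ⟨e⟩⟩ := h.equiv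
  obtain ⟨e0⟩ := h0.equiv
  have h3 := η.of_equiv 0 e
  rw [Count.of_prod, Count.of_prod, Count.of_pow, Count.of_pow] at h3
  have h4 : η.num 0 (ModuleCat.of A (V'.deg 0)) = 1 := hV
  have h5 : η.num 0 (ModuleCat.of A (W'.deg 0)) = 1 := hW
  have h6 : η.num 0 (ModuleCat.of A (V.deg i)) = η.num 0 (ModuleCat.of A (W.deg i)) := heq
  rw [h4, h5, h6] at h3
  have hab : a = b := by omega
  subst hab
  refine degIso_of (iso_of_hm _ (V.deg i) (W.deg i) rfl ?_)
  intro T _ _ _ _ _
  let e1 : (Fin a → V'.deg 0) ≃ₗ[A] (Fin a → W'.deg 0) := LinearEquiv.piCongrRight fun _ => e0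
  have h8 := hm_congr T e
  rw [hm_prod, hm_prod, hm_congr T e1] at h8
  omega

/-- The exceptional multiplicity. -/
theorem low_of_except (hm : 4 ≤ m) (hKp : DH.RelPol K) (hLp : DH.RelPol L) (fm : DH.SFM K L)
    (hK : RGives η E O K) (hL : RGives η F P L) (hE : LowExcept E F) (hO : Low O P) (C : ℤ)
    (hC : LibgoberWood K.toKRing C) (hD : LibgoberWood L.toKRing C) : Low E F := by
  have hh := DH.hodge_except (by omega) hKp hLp fm (low_mult hK hL hE hO) C hC hD
  have hj : ∀ j, 1 ≤ j → ∀ p q, DH.mult K j p q = DH.mult L j p q := fun j hj p q =>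
    DH.agree_of_low hKp hLp fm (fun p q hpq => low_mult hK hL hE hO j p q hpq (by omega)) p q
  have hd := DH.h_diff hj 1 1
  rw [hh, sub_self] at hd
  have h1 : DH.mult K 0 1 1 = DH.mult L 0 1 1 := by linarith
  have hone : DegIso (first E) (first F) 1 := by
    refine cancel (η := η) hE.2.2 hE.2.1 (num_one hK.1) (num_one hL.1) ?_
    have h2 := hK.2.1 0 (m + 1) (zero_add _) 1 0
    have h3 := hL.2.1 0 (m + 1) (zero_add _) 1 0
    rw [add_zero, sub_zero] at h2 h3
    rw [h2, h3] at h1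
    exact_mod_cast h1
  intro j k h i h0 hi
  by_cases hji : j = 0 ∧ i = 1
  · obtain ⟨rfl, rfl⟩ := hji
    obtain rfl : k = m + 1 := by omega
    exact hone
  · exact hE.1 j k h i h0 hi hji

end Pool.Agent.X268.SE
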