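import Pool.Agent.X268.SD.Stm
import Pool.Agent.X268.DH.Defs

set_option linter.unusedSectionVars false

open Module

namespace Pool.Agent.X268.SE

open Pool.Agent.X268.HS Pool.Agent.X268.SD

variable {A : Type} [Ring A] [Algebra ℚ A]

/-- The endomorphisms of the module. -/
abbrev Op (V : LData A) : Type := V.V →ₗ[A] V.V

/-- The classes killed by `l ^ j`. -/
def Kr {V : LData A} (l : Op V) (j : ℕ) : Submodule A V.V := LinearMap.ker (l ^ j)

/-- The submodule `ker (l ^ j) + l ker (l ^ (j + 2))` of `ker (l ^ (j + 1))`. -/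
def Ir {V : LData A} (l : Op V) (j : ℕ) : Submodule A V.V := Kr l j ⊔ (Kr l (j + 2)).map l

variable [StarRing A]

/-- The homomorphisms from `ker (l ^ (j + 1))` to `Q`. -/
abbrev KrHom {V : LData A} (l : Op V) (j : ℕ) (Q : LData A) : Type := Kr l (j + 1) →ₗ[A] Q.V

/-- The value of a homomorphism. -/
def cls {V : LData A} {l : Op V} {j : ℕ} {Q : LData A} (π : KrHom l j Q) (x : Kr l (j + 1)) : Q.V :=
  π x

/-- `l ^ j y`. -/
def lpow {V : LData A} (l : Op V) (j : ℕ) (y : V.V) : V.V := (l ^ j) y

/-- `π` identifies `ker (l ^ (j + 1)) / (ker (l ^ j) + l ker (l ^ (j + 2)))` with `Q`, as a graded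
module with the form `B(x, l ^ j y)`. -/
structure IsBlock {V : LData A} (l : Op V) (j : ℕ) (Q : LData A) (π : KrHom l j Q) : Prop where
  ker : ∀ x : Kr l (j + 1), cls π x = 0 ↔ x.1 ∈ Ir l j
  mem : ∀ (i : ℤ) (x : Kr l (j + 1)), V.InDeg i x.1 → Q.InDeg i (cls π x)
  surj : ∀ (i : ℤ) (y : Q.V), Q.InDeg i y → ∃ x : Kr l (j + 1), V.InDeg i x.1 ∧ cls π x = y
  form : ∀ x y : Kr l (j + 1), Q.b (cls π x) (cls π y) = V.b x.1 (lpow l j y.1)

/-- The first vectors of the Jordan blocks of length `j + 1` of `l`, with a structure of polarised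
Lefschetz module of top degree `k`. -/
structure Block {V : LData A} (l : Op V) (j k : ℕ) where
  Q : LefMod A k
  π : KrHom l j Q.toLData
  blk : IsBlock l j Q.toLData π

/-- A polarised Lefschetz module of top degree `n` with an operator `l` of degree one, such that
for `j + k = n` the first vectors of the Jordan blocks of length `j + 1` form a polarised Lefschetz
module of top degree `k`. -/
structure RelMod (A : Type) [Ring A] [Algebra ℚ A] [StarRing A] (n : ℕ) extends LefMod A n where
  l : Op toLData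
  l_mem : ∀ (i : ℤ) (x : V), toLData.InDeg i x → toLData.InDeg (i + 1) (lpow l 1 x)
  blk : ∀ j k : ℕ, j + k = n → Block l j k

variable {n : ℕ}

/-- Positivity of the polarisations of the blocks. -/
def RelPos (X Y : RelMod A n) : Prop :=
  ∀ (j k : ℕ) (h : j + k = n), JointPos (X.blk j k h).Q (Y.blk j k h).Q

/-- An isometry for the Mukai pairings which commutes with `l`. -/
structure RIsom (X Y : RelMod A n) extends Isom X.toLefMod Y.toLefMod where
  lin : ∀ x, LData.map φ (lpow X.l 1 x) = lpow Y.l 1 (LData.map φ x)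

/-- The blocks are isomorphic in the degrees `i` with `2 i + 3 ≤ k`. -/
def Low (X Y : RelMod A n) : Prop :=
  ∀ (j k : ℕ) (h : j + k = n) (i : ℤ), 0 ≤ i → 2 * i + 3 ≤ k →
    DegIso (X.blk j k h).Q.toLData (Y.blk j k h).Q.toLData i

variable {m : ℕ}

/-- The blocks of length one, with a structure of polarised Lefschetz module of top degree `n`. -/
noncomputable def first {n : ℕ} (X : RelMod A n) : LData A := (X.blk 0 n (zero_add n)).Q.toLData

/-- The blocks are isomorphic in the degrees `i` with `2 i + 3 ≤ k`, with the exception of the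
blocks of length one in degree one, which are isomorphic up to direct sums of copies of the unit
objects `X.deg 0` and `Y.deg 0`. -/
def LowExcept {n : ℕ} (X Y : RelMod A n) : Prop :=
  (∀ (j k : ℕ) (h : j + k = n) (i : ℤ), 0 ≤ i → 2 * i + 3 ≤ k → ¬ (j = 0 ∧ i = 1) →
    DegIso (X.blk j k h).Q.toLData (Y.blk j k h).Q.toLData i) ∧
  DegIso X.toLData Y.toLData 0 ∧ UpTo (first X) (first Y) X.toLData Y.toLData 1

/-- The Hodge numbers of `K` are the numbers of `E.deg i = H^{2 i}(i)` and of
`O.deg i = H^{2 i + 1}(i)`, and the same for the blocks. -/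
def RGives (η : Count A) (E : RelMod A (m + 1)) (O : RelMod A m) (K : DH.Fib (m + 1)) : Prop :=
  Gives η E.toLefMod O.toLefMod K.toKRing ∧
  (∀ (j k : ℕ) (h : j + k = m + 1) (i a : ℤ),
    DH.mult K j (i + a) (i - a) = η.num a (degMod (E.blk j k h).Q.toLData i)) ∧
  ∀ (j k : ℕ) (h : j + k = m) (i a : ℤ),
    DH.mult K j (i + a) (i + 1 - a) = η.num a (degMod (O.blk j k h).Q.toLData i)

/-- The graded modules `E` and `F`, and `O` and `P`, are isomorphic. -/
def SameCoh (E F : RelMod A (m + 1)) (O P : RelMod A m) : Prop :=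
  GrIso E.toLefMod F.toLefMod ∧ GrIso O.toLefMod P.toLefMod

end Pool.Agent.X268.SE
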